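import Mathlib

set_option autoImplicit false

/-!
# Central quotients of Odesskii's twist of the 4-dimensional Sklyanin algebra are never domains

`S = S(α, β, γ)` is the 4-dimensional Sklyanin algebra, `A = M_2(S)^{K_4}` its twist, and `Ω` any
nonzero central element of degree two of `S`.  We show that `A / (Ω)` always has nonzero
zero-divisors of degree one.

Method.  Put `w = (1 + β, 1 - α, 1 + αβ)`, so that `α w_1 = w_3 - w_2`, `β w_2 = w_1 - w_3`,
`γ w_3 = w_2 - w_1`.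

* `central_span`: a central element of degree two is a combination of
  `Ω_1 = -x_0² + x_1² + x_2² + x_3²` and
  `Ω_2 = Σ w_i (w_j + w_l - w_i) x_i²` (tested on truncated point modules).
* `exists_sys`, `linM_mul`: with `θ² = c_2 / c_1` and `q_i² = 1 + θ² w_j w_l` the scalar matrix
  `-(c_1 Ω_1 + c_2 Ω_2)` is the product of two explicit degree one elements of `A`, with
  coordinates `(1, q_j q_l ± θ w_i q_i)`; there is a similar formula for `c_1 = 0`.
* `linM_ne`: nonzero degree one elements of `A` survive in `A / (Ω)`.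
-/

universe u v

namespace Pool.Agent.Results.MP_b32758_al.NeverDomain

/-! ## Definitions used in the statement -/

section Generic

variable {k : Type u} [Field k] {S : Type v} [Ring S] [Algebra k S]

/-- The degree-two part of an algebra generated by `x_0, …, x_3`: the `k`-span of the sixteen
products `x_i x_j`. -/
def degTwo (k : Type u) [Field k] {S : Type v} [Ring S] [Algebra k S] (x : Fin 4 → S) :
    Submodule k S :=
  Submodule.span k (Set.range fun p : Fin 4 × Fin 4 => x p.1 * x p.2)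

/-- `Ω` is a nonzero element of degree two of the centre of `S` (with generators `x_i`). -/
def IsCentralTwo (k : Type u) [Field k] {S : Type v} [Ring S] [Algebra k S] (x : Fin 4 → S)
    (Ω : S) : Prop :=
  Ω ∈ degTwo k x ∧ Ω ∈ Subalgebra.center k S ∧ Ω ≠ 0

lemma conj_mul (P M N : Matrix (Fin 2) (Fin 2) S) (hP : P * P = 1) (g : S →ₐ[k] S) :
    P * (M * N).map g * P = (P * M.map g * P) * (P * N.map g * P) := by
  rw [Matrix.map_mul]
  calc P * (M.map g * N.map g) * P = P * M.map g * 1 * N.map g * P := by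
        simp only [Matrix.mul_assoc, Matrix.one_mul]
    _ = _ := by rw [← hP]; simp only [Matrix.mul_assoc]

lemma conj_add (P M N : Matrix (Fin 2) (Fin 2) S) (g : S →ₐ[k] S) :
    P * (M + N).map g * P = (P * M.map g * P) + (P * N.map g * P) := by
  rw [Matrix.map_add _ (map_add _), Matrix.mul_add, Matrix.add_mul]

lemma conj_alg (P : Matrix (Fin 2) (Fin 2) S) (hP : P * P = 1) (g : S →ₐ[k] S) (r : k) :
    P * (algebraMap k (Matrix (Fin 2) (Fin 2) S) r).map g * P =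
      algebraMap k (Matrix (Fin 2) (Fin 2) S) r := by
  rw [Algebra.algebraMap_eq_smul_one, Matrix.map_smul _ _ (map_smul _ r),
    Matrix.map_one _ (map_zero _) (map_one _), Matrix.mul_smul, Matrix.smul_mul,
    Matrix.mul_one, hP]

/-- For a matrix `P` with `P² = 1` and an endomorphism `g` of `S`: the subalgebra of `M_2(S)` of
all `M` with `P g(M) P⁻¹ = M`, where `g` is applied to the entries and `P⁻¹ = P`. -/
def fixedBy (g : S →ₐ[k] S) (P : Matrix (Fin 2) (Fin 2) S) (hP : P * P = 1) :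
    Subalgebra k (Matrix (Fin 2) (Fin 2) S) where
  carrier := {M | P * M.map g * P = M}
  mul_mem' := fun {a b} h h' => by
    simp only [Set.mem_ofPred_eq] at h h' ⊢
    rw [conj_mul P a b hP g, h, h']
  add_mem' := fun {a b} h h' => by
    simp only [Set.mem_ofPred_eq] at h h' ⊢
    rw [conj_add, h, h']
  algebraMap_mem' := fun r => conj_alg P hP g r

lemma Zsq : (!![1, 0; 0, -1] : Matrix (Fin 2) (Fin 2) S) * !![1, 0; 0, -1] = 1 := by
  simp [Matrix.one_fin_two]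

lemma Xsq : (!![0, 1; 1, 0] : Matrix (Fin 2) (Fin 2) S) * !![0, 1; 1, 0] = 1 := by
  simp [Matrix.one_fin_two]

/-- The twisted algebra `A = M_2(S)^{K_4}`, where the generator `g_1` of `K_4` acts on
`M_2(S) = S ⊗ M_2(k)` by applying `g_1` to the entries and conjugating by `diag(1, -1)`, and `g_2`
by applying `g_2` to the entries and conjugating by the permutation matrix. -/
def twA (g₁ g₂ : S →ₐ[k] S) : Subalgebra k (Matrix (Fin 2) (Fin 2) S) :=
  fixedBy g₁ !![1, 0; 0, -1] Zsq ⊓ fixedBy g₂ !![0, 1; 1, 0] Xsq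

/-- The quotient of a ring `R` by the two-sided ideal generated by `ω` has nonzero zero-divisors
(so it is not a domain). -/
def QuotHasZeroDivisors {R : Type*} [Ring R] (ω : R) : Prop :=
  ∃ u v : (TwoSidedIdeal.span {ω}).ringCon.Quotient, u ≠ 0 ∧ v ≠ 0 ∧ u * v = 0

/-- The scalar matrix `Ω` lies in `A = M_2(S)^{K_4}` and `R_Ω = A / (Ω)` has nonzero
zero-divisors. -/
def TwistQuotNotDomain (g₁ g₂ : S →ₐ[k] S) (Ω : S) : Prop :=
  ∃ hA : Matrix.scalar (Fin 2) Ω ∈ twA g₁ g₂,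
    QuotHasZeroDivisors (⟨Matrix.scalar (Fin 2) Ω, hA⟩ : twA g₁ g₂)

/-- The homomorphism to `B` from the algebra with generators `X_0, …, X_3` and relations `r` that
sends `X_i` to `y_i`, provided that the `y_i` satisfy the relations. -/
def homOfGens {B : Type*} [Ring B] [Algebra k B]
    (r : FreeAlgebra k (Fin 4) → FreeAlgebra k (Fin 4) → Prop) (y : Fin 4 → B)
    (hy : ∀ ⦃a b⦄, r a b → FreeAlgebra.lift k y a = FreeAlgebra.lift k y b) :
    RingQuot r →ₐ[k] B :=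
  RingQuot.liftAlgHom k ⟨FreeAlgebra.lift k y, hy⟩

end Generic

section Concrete

variable {k : Type u} [Field k]

/-- The six defining relations of the Sklyanin algebra `S(α, β, γ)`, as a relation on the free
algebra `k⟨X_0, X_1, X_2, X_3⟩` (`FreeAlgebra.ι k i` is `X_i`). -/
inductive SklRel (α β γ : k) : FreeAlgebra k (Fin 4) → FreeAlgebra k (Fin 4) → Prop
  | comm1 : SklRel α β γ
      (FreeAlgebra.ι k 0 * FreeAlgebra.ι k 1 - FreeAlgebra.ι k 1 * FreeAlgebra.ι k 0)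
      (α • (FreeAlgebra.ι k 2 * FreeAlgebra.ι k 3 + FreeAlgebra.ι k 3 * FreeAlgebra.ι k 2))
  | comm2 : SklRel α β γ
      (FreeAlgebra.ι k 0 * FreeAlgebra.ι k 2 - FreeAlgebra.ι k 2 * FreeAlgebra.ι k 0)
      (β • (FreeAlgebra.ι k 3 * FreeAlgebra.ι k 1 + FreeAlgebra.ι k 1 * FreeAlgebra.ι k 3))
  | comm3 : SklRel α β γ
      (FreeAlgebra.ι k 0 * FreeAlgebra.ι k 3 - FreeAlgebra.ι k 3 * FreeAlgebra.ι k 0)
      (γ • (FreeAlgebra.ι k 1 * FreeAlgebra.ι k 2 + FreeAlgebra.ι k 2 * FreeAlgebra.ι k 1))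
  | anti1 : SklRel α β γ
      (FreeAlgebra.ι k 0 * FreeAlgebra.ι k 1 + FreeAlgebra.ι k 1 * FreeAlgebra.ι k 0)
      (FreeAlgebra.ι k 2 * FreeAlgebra.ι k 3 - FreeAlgebra.ι k 3 * FreeAlgebra.ι k 2)
  | anti2 : SklRel α β γ
      (FreeAlgebra.ι k 0 * FreeAlgebra.ι k 2 + FreeAlgebra.ι k 2 * FreeAlgebra.ι k 0)
      (FreeAlgebra.ι k 3 * FreeAlgebra.ι k 1 - FreeAlgebra.ι k 1 * FreeAlgebra.ι k 3)
  | anti3 : SklRel α β γ
      (FreeAlgebra.ι k 0 * FreeAlgebra.ι k 3 + FreeAlgebra.ι k 3 * FreeAlgebra.ι k 0)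
      (FreeAlgebra.ι k 1 * FreeAlgebra.ι k 2 - FreeAlgebra.ι k 2 * FreeAlgebra.ι k 1)

/-- The Sklyanin algebra `S(α, β, γ)`: the quotient of the free algebra by the six relations. -/
abbrev Skl (α β γ : k) : Type u := RingQuot (SklRel α β γ)

/-- The generators `x_0, x_1, x_2, x_3` of `S(α, β, γ)` (the images of the free generators). -/
def x (α β γ : k) (i : Fin 4) : Skl α β γ :=
  RingQuot.mkAlgHom k (SklRel α β γ) (FreeAlgebra.ι k i)

/-- The images `x_0, x_1, -x_2, -x_3` of the generators under `g_1`. -/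
def y1 (α β γ : k) (i : Fin 4) : Skl α β γ :=
  if i = 0 ∨ i = 1 then x α β γ i else -x α β γ i

/-- The images `x_0, -x_1, x_2, -x_3` of the generators under `g_2`. -/
def y2 (α β γ : k) (i : Fin 4) : Skl α β γ :=
  if i = 0 ∨ i = 2 then x α β γ i else -x α β γ i

end Concrete

section GenericSat

variable {k : Type u} [Field k] (α β γ : k)

/-- The six relations, for four elements `y_0, …, y_3` of a `k`-algebra. -/
structure Sat {B : Type*} [Ring B] [Algebra k B] (y : Fin 4 → B) : Prop where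
  comm1 : y 0 * y 1 - y 1 * y 0 = α • (y 2 * y 3 + y 3 * y 2)
  comm2 : y 0 * y 2 - y 2 * y 0 = β • (y 3 * y 1 + y 1 * y 3)
  comm3 : y 0 * y 3 - y 3 * y 0 = γ • (y 1 * y 2 + y 2 * y 1)
  anti1 : y 0 * y 1 + y 1 * y 0 = y 2 * y 3 - y 3 * y 2
  anti2 : y 0 * y 2 + y 2 * y 0 = y 3 * y 1 - y 1 * y 3
  anti3 : y 0 * y 3 + y 3 * y 0 = y 1 * y 2 - y 2 * y 1

variable {α β γ}

lemma Sat.rel {B : Type*} [Ring B] [Algebra k B] {y : Fin 4 → B} (hy : Sat α β γ y) :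
    ∀ ⦃a b⦄, SklRel α β γ a b → FreeAlgebra.lift k y a = FreeAlgebra.lift k y b := by
  intro a b hab
  cases hab <;> simp only [map_sub, map_add, map_mul, map_smul, FreeAlgebra.lift_ι_apply]
  · exact hy.comm1
  · exact hy.comm2
  · exact hy.comm3
  · exact hy.anti1
  · exact hy.anti2
  · exact hy.anti3

lemma Sat.neg1 {B : Type*} [Ring B] [Algebra k B] {y : Fin 4 → B} (h : Sat α β γ y) :
    Sat α β γ ![y 0, y 1, -y 2, -y 3] := by
  constructor <;> simp only [Matrix.cons_val]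
  · simpa using h.comm1
  · have := h.comm2
    simp only [mul_neg, neg_mul]
    rw [← neg_add, smul_neg, ← this]; abel
  · have := h.comm3
    simp only [mul_neg, neg_mul]
    rw [← neg_add, smul_neg, ← this]; abel
  · simpa using h.anti1
  · have := h.anti2
    simp only [mul_neg, neg_mul]
    rw [← neg_add, this]; abel
  · have := h.anti3
    simp only [mul_neg, neg_mul]
    rw [← neg_add, this]; abel

lemma Sat.neg2 {B : Type*} [Ring B] [Algebra k B] {y : Fin 4 → B} (h : Sat α β γ y) :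
    Sat α β γ ![y 0, -y 1, y 2, -y 3] := by
  constructor <;> simp only [Matrix.cons_val]
  · have := h.comm1
    simp only [mul_neg, neg_mul]
    rw [← neg_add, smul_neg, ← this]; abel
  · simpa using h.comm2
  · have := h.comm3
    simp only [mul_neg, neg_mul]
    rw [← neg_add, smul_neg, ← this]; abel
  · have := h.anti1
    simp only [mul_neg, neg_mul]
    rw [← neg_add, this]; abel
  · simpa using h.anti2
  · have := h.anti3
    simp only [mul_neg, neg_mul]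
    rw [← neg_add, this]; abel

lemma sat_of_hom {B : Type*} [Ring B] [Algebra k B] (F : FreeAlgebra k (Fin 4) →ₐ[k] B)
    (hF : ∀ ⦃a b⦄, SklRel α β γ a b → F a = F b) :
    Sat α β γ (fun i => F (FreeAlgebra.ι k i)) := by
  constructor
  · simpa only [map_sub, map_add, map_mul, map_smul] using hF SklRel.comm1
  · simpa only [map_sub, map_add, map_mul, map_smul] using hF SklRel.comm2
  · simpa only [map_sub, map_add, map_mul, map_smul] using hF SklRel.comm3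
  · simpa only [map_sub, map_add, map_mul, map_smul] using hF SklRel.anti1
  · simpa only [map_sub, map_add, map_mul, map_smul] using hF SklRel.anti2
  · simpa only [map_sub, map_add, map_mul, map_smul] using hF SklRel.anti3

end GenericSat

section Concrete2

variable {k : Type u} [Field k] (α β γ : k)

lemma sat_x : Sat α β γ (x α β γ) :=
  sat_of_hom (RingQuot.mkAlgHom k (SklRel α β γ)) (fun _ _ h => RingQuot.mkAlgHom_rel k h)

lemma sat_y1 : Sat α β γ (y1 α β γ) := by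
  have e : y1 α β γ = ![x α β γ 0, x α β γ 1, -x α β γ 2, -x α β γ 3] := by
    funext i; fin_cases i <;> rfl
  rw [e]
  exact (sat_x α β γ).neg1

lemma sat_y2 : Sat α β γ (y2 α β γ) := by
  have e : y2 α β γ = ![x α β γ 0, -x α β γ 1, x α β γ 2, -x α β γ 3] := by
    funext i; fin_cases i <;> rfl
  rw [e]
  exact (sat_x α β γ).neg2

/-- The automorphism `g_1` of `S`: it fixes `x_0, x_1` and negates `x_2, x_3`. -/
def g1 : Skl α β γ →ₐ[k] Skl α β γ :=
  homOfGens (SklRel α β γ) (y1 α β γ) (sat_y1 α β γ).rel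

/-- The automorphism `g_2` of `S`: it fixes `x_0, x_2` and negates `x_1, x_3`. -/
def g2 : Skl α β γ →ₐ[k] Skl α β γ :=
  homOfGens (SklRel α β γ) (y2 α β γ) (sat_y2 α β γ).rel

end Concrete2

/-! ## The proof -/

section Scalars

variable {k : Type u} [Field k] (α β γ : k)

/-- the bilinear system satisfied by the coordinates of the two factors -/
structure Sys (b a : Fin 4 → k) : Prop where
  s1 : b 2 * a 3 + b 3 * a 2 = b 0 * a 1 + b 1 * a 0
  s2 : b 3 * a 1 + b 1 * a 3 = b 0 * a 2 + b 2 * a 0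
  s3 : b 1 * a 2 + b 2 * a 1 = b 0 * a 3 + b 3 * a 0
  d1 : b 2 * a 3 - b 3 * a 2 = α * (b 0 * a 1 - b 1 * a 0)
  d2 : b 3 * a 1 - b 1 * a 3 = β * (b 0 * a 2 - b 2 * a 0)
  d3 : b 1 * a 2 - b 2 * a 1 = γ * (b 0 * a 3 - b 3 * a 0)

variable {α β γ}

lemma vanish {A : Type*} [AddCommGroup A] [Module k A] [CharZero k] (a : k)
    (x01 x10 x23 x32 : A) (hc : x01 - x10 = a • (x23 + x32)) (ha : x01 + x10 = x23 - x32)
    (m01 m10 m23 m32 : k) (hs : m23 + m32 = m01 + m10) (hd : m23 - m32 = a * (m01 - m10)) :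
    m01 • x01 + m10 • x10 - m23 • x23 + m32 • x32 = 0 := by
  have e1 : m23 = ((m01 + m10) + a * (m01 - m10)) / 2 := by
    field_simp; linear_combination hs + hd
  have e2 : m32 = ((m01 + m10) - a * (m01 - m10)) / 2 := by
    field_simp; linear_combination hs - hd
  rw [e1, e2]
  linear_combination (norm := module) ((m01 + m10) / 2) • ha + ((m01 - m10) / 2) • hc

/-- existence of the two linear factors -/
lemma exists_sys [IsAlgClosed k] [CharZero k] (w1 w2 w3 : k) (h1 : w1 ≠ 0) (h2 : w2 ≠ 0)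
    (h3 : w3 ≠ 0) (hα : α * w1 = w3 - w2) (hβ : β * w2 = w1 - w3) (hγ : γ * w3 = w2 - w1)
    (c1 c2 : k) (hc : ¬ (c1 = 0 ∧ c2 = 0)) :
    ∃ b a : Fin 4 → k, Sys α β γ b a ∧ b 0 * a 0 = c1 ∧
      b 1 * a 1 = c1 + c2 * (w1 * (w2 + w3 - w1)) ∧
      b 2 * a 2 = c1 + c2 * (w2 * (w3 + w1 - w2)) ∧
      b 3 * a 3 = c1 + c2 * (w3 * (w1 + w2 - w3)) ∧ (∃ i, b i ≠ 0) ∧ (∃ i, a i ≠ 0) := by
  by_cases hc1 : c1 = 0
  · have hc2 : c2 ≠ 0 := fun h => hc ⟨hc1, h⟩
    obtain ⟨q1, hq1⟩ := IsAlgClosed.exists_pow_nat_eq (w2 * w3) (n := 2) (by norm_num)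
    obtain ⟨q2, hq2⟩ := IsAlgClosed.exists_pow_nat_eq (w3 * w1) (n := 2) (by norm_num)
    have hq10 : q1 ≠ 0 := by
      rintro rfl
      have : w2 * w3 = 0 := by rw [← hq1]; ring
      rcases mul_eq_zero.1 this with h | h
      · exact h2 h
      · exact h3 h
    have hq20 : q2 ≠ 0 := by
      rintro rfl
      have : w3 * w1 = 0 := by rw [← hq2]; ring
      rcases mul_eq_zero.1 this with h | h
      · exact h3 h
      · exact h1 h
    obtain ⟨q3, hq3⟩ : ∃ q3, q3 * (q1 * q2) = w1 * w2 * w3 :=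
      ⟨w1 * w2 * w3 / (q1 * q2), by field_simp⟩
    have hq33 : q3 ^ 2 = w1 * w2 := by
      have : q3 ^ 2 * (w2 * w3 * (w3 * w1)) = w1 * w2 * (w2 * w3 * (w3 * w1)) := by
        rw [← hq1, ← hq2]
        calc q3 ^ 2 * (q1 ^ 2 * q2 ^ 2) = (q3 * (q1 * q2)) ^ 2 := by ring
          _ = (w1 * w2 * w3) ^ 2 := by rw [hq3]
          _ = w1 * w2 * ((w2 * w3) * (w3 * w1)) := by ring
          _ = _ := by rw [← hq1, ← hq2]
      refine mul_right_cancel₀ ?_ this
      exact mul_ne_zero (mul_ne_zero h2 h3) (mul_ne_zero h3 h1)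
    obtain ⟨e, he⟩ : ∃ e, c2 = e * (w1 * w2 * w3) :=
      ⟨c2 / (w1 * w2 * w3), by field_simp⟩
    have he0 : e ≠ 0 := by
      rintro rfl
      exact hc2 (by rw [he]; ring)
    refine ⟨![2 * e * (w1 * w2 * w3), e * (w2 + w3 - w1) * q2 * q3, e * (w3 + w1 - w2) * q3 * q1,
      e * (w1 + w2 - w3) * q1 * q2], ![0, w1 * q1, w2 * q2, w3 * q3], ?_, ?_, ?_, ?_, ?_, ?_, ?_⟩
    · constructor <;> simp only [Matrix.cons_val]
      · linear_combination (e * (w3 + w1 - w2) * q1 * w3) * hq33 +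
          (e * (w1 + w2 - w3) * q1 * w2) * hq2
      · linear_combination (e * (w1 + w2 - w3) * q2 * w1) * hq1 +
          (e * (w2 + w3 - w1) * q2 * w3) * hq33
      · linear_combination (e * (w2 + w3 - w1) * q3 * w2) * hq2 +
          (e * (w3 + w1 - w2) * q3 * w1) * hq1
      · linear_combination (e * (w3 + w1 - w2) * q1 * w3) * hq33 -
          (e * (w1 + w2 - w3) * q1 * w2) * hq2 - 2 * e * (w1 * w2 * w3) * q1 * hα
      · linear_combination (e * (w1 + w2 - w3) * q2 * w1) * hq1 -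
          (e * (w2 + w3 - w1) * q2 * w3) * hq33 - 2 * e * (w1 * w2 * w3) * q2 * hβ
      · linear_combination (e * (w2 + w3 - w1) * q3 * w2) * hq2 -
          (e * (w3 + w1 - w2) * q3 * w1) * hq1 - 2 * e * (w1 * w2 * w3) * q3 * hγ
    · simp [hc1]
    · simp only [Matrix.cons_val]
      linear_combination (e * (w2 + w3 - w1) * w1) * hq3 - hc1 - (w1 * (w2 + w3 - w1)) * he
    · simp only [Matrix.cons_val]
      linear_combination (e * (w3 + w1 - w2) * w2) * hq3 - hc1 - (w2 * (w3 + w1 - w2)) * he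
    · simp only [Matrix.cons_val]
      linear_combination (e * (w1 + w2 - w3) * w3) * hq3 - hc1 - (w3 * (w1 + w2 - w3)) * he
    · refine ⟨0, ?_⟩
      simp only [Matrix.cons_val]
      exact mul_ne_zero (mul_ne_zero two_ne_zero he0) (mul_ne_zero (mul_ne_zero h1 h2) h3)
    · refine ⟨1, ?_⟩
      simp only [Matrix.cons_val]
      exact mul_ne_zero h1 hq10
  · obtain ⟨t, ht⟩ : ∃ t, c2 = c1 * t := ⟨c2 / c1, by field_simp⟩
    obtain ⟨θ, hθ⟩ := IsAlgClosed.exists_pow_nat_eq t (n := 2) (by norm_num)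
    obtain ⟨q1, hq1⟩ := IsAlgClosed.exists_pow_nat_eq (1 + t * (w2 * w3)) (n := 2) (by norm_num)
    obtain ⟨q2, hq2⟩ := IsAlgClosed.exists_pow_nat_eq (1 + t * (w3 * w1)) (n := 2) (by norm_num)
    obtain ⟨q3, hq3⟩ := IsAlgClosed.exists_pow_nat_eq (1 + t * (w1 * w2)) (n := 2) (by norm_num)
    refine ⟨![c1, c1 * (q2 * q3 - θ * w1 * q1), c1 * (q3 * q1 - θ * w2 * q2),
      c1 * (q1 * q2 - θ * w3 * q3)], ![1, q2 * q3 + θ * w1 * q1, q3 * q1 + θ * w2 * q2,
      q1 * q2 + θ * w3 * q3], ?_, ?_, ?_, ?_, ?_, ?_, ?_⟩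
    · constructor <;> simp only [Matrix.cons_val]
      · linear_combination 2 * c1 * q2 * q3 * hq1 - 2 * c1 * q2 * q3 * w2 * w3 * hθ
      · linear_combination 2 * c1 * q3 * q1 * hq2 - 2 * c1 * q3 * q1 * w3 * w1 * hθ
      · linear_combination 2 * c1 * q1 * q2 * hq3 - 2 * c1 * q1 * q2 * w1 * w2 * hθ
      · linear_combination 2 * c1 * θ * q1 * w3 * hq3 - 2 * c1 * θ * q1 * w2 * hq2 -
          2 * c1 * θ * q1 * hα
      · linear_combination 2 * c1 * θ * q2 * w1 * hq1 - 2 * c1 * θ * q2 * w3 * hq3 -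
          2 * c1 * θ * q2 * hβ
      · linear_combination 2 * c1 * θ * q3 * w2 * hq2 - 2 * c1 * θ * q3 * w1 * hq1 -
          2 * c1 * θ * q3 * hγ
    · simp
    · simp only [Matrix.cons_val]
      linear_combination c1 * q3 ^ 2 * hq2 + c1 * (1 + t * (w3 * w1)) * hq3 -
        c1 * w1 ^ 2 * q1 ^ 2 * hθ - c1 * t * w1 ^ 2 * hq1 - (w1 * (w2 + w3 - w1)) * ht
    · simp only [Matrix.cons_val]
      linear_combination c1 * q1 ^ 2 * hq3 + c1 * (1 + t * (w1 * w2)) * hq1 -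
        c1 * w2 ^ 2 * q2 ^ 2 * hθ - c1 * t * w2 ^ 2 * hq2 - (w2 * (w3 + w1 - w2)) * ht
    · simp only [Matrix.cons_val]
      linear_combination c1 * q2 ^ 2 * hq1 + c1 * (1 + t * (w2 * w3)) * hq2 -
        c1 * w3 ^ 2 * q3 ^ 2 * hθ - c1 * t * w3 ^ 2 * hq3 - (w3 * (w1 + w2 - w3)) * ht
    · exact ⟨0, by simpa using hc1⟩
    · exact ⟨0, by simp⟩

/-- the relations on a pair of points -/
structure PR (α β γ : k) (p q : Fin 4 → k) : Prop where
  c1 : p 0 * q 1 - p 1 * q 0 = α * (p 2 * q 3 + p 3 * q 2)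
  c2 : p 0 * q 2 - p 2 * q 0 = β * (p 3 * q 1 + p 1 * q 3)
  c3 : p 0 * q 3 - p 3 * q 0 = γ * (p 1 * q 2 + p 2 * q 1)
  a1 : p 0 * q 1 + p 1 * q 0 = p 2 * q 3 - p 3 * q 2
  a2 : p 0 * q 2 + p 2 * q 0 = p 3 * q 1 - p 1 * q 3
  a3 : p 0 * q 3 + p 3 * q 0 = p 1 * q 2 - p 2 * q 1

/-- superdiagonal matrix -/
def NM (s t u : k) : Matrix (Fin 4) (Fin 4) k := !![0, s, 0, 0; 0, 0, t, 0; 0, 0, 0, u; 0, 0, 0, 0]

/-- second superdiagonal matrix -/
def NM2 (s t : k) : Matrix (Fin 4) (Fin 4) k := !![0, 0, s, 0; 0, 0, 0, t; 0, 0, 0, 0; 0, 0, 0, 0]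

lemma NM_mul (s t u s' t' u' : k) : NM s t u * NM s' t' u' = NM2 (s * t') (t * u') := by
  unfold NM NM2
  ext i j
  fin_cases i <;> fin_cases j <;> simp [Matrix.mul_apply, Fin.sum_univ_four]

lemma NM2_mul (a b s t u : k) : (NM2 a b * NM s t u) 0 3 = a * u := by
  simp [NM, NM2, Matrix.mul_apply, Fin.sum_univ_four]

lemma NM_mul2 (a b s t u : k) : (NM s t u * NM2 a b) 0 3 = s * b := by
  simp [NM, NM2, Matrix.mul_apply, Fin.sum_univ_four]

lemma NM2_add (a b a' b' : k) : NM2 a b + NM2 a' b' = NM2 (a + a') (b + b') := by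
  unfold NM2
  ext i j
  fin_cases i <;> fin_cases j <;> simp

lemma NM2_sub (a b a' b' : k) : NM2 a b - NM2 a' b' = NM2 (a - a') (b - b') := by
  unfold NM2
  ext i j
  fin_cases i <;> fin_cases j <;> simp

lemma NM2_smul (c a b : k) : c • NM2 a b = NM2 (c * a) (c * b) := by
  unfold NM2
  ext i j
  fin_cases i <;> fin_cases j <;> simp

lemma sat_NM {p q r : Fin 4 → k} (hpq : PR α β γ p q) (hqr : PR α β γ q r) :
    Sat α β γ (fun i => NM (p i) (q i) (r i)) := by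
  constructor <;> simp only [NM_mul, NM2_add, NM2_sub, NM2_smul]
  · rw [hpq.c1, hqr.c1]
  · rw [hpq.c2, hqr.c2]
  · rw [hpq.c3, hqr.c3]
  · rw [hpq.a1, hqr.a1]
  · rw [hpq.a2, hqr.a2]
  · rw [hpq.a3, hqr.a3]

/-- value of the corresponding bilinear form on a pair of points -/
def vf (f : Fin 4 → k) (g h : Fin 3 → k) (p q : Fin 4 → k) : k :=
  f 0 * (p 0 * q 0) + f 1 * (p 1 * q 1) + f 2 * (p 2 * q 2) + f 3 * (p 3 * q 3)
    + g 0 * (p 0 * q 1) + g 1 * (p 0 * q 2) + g 2 * (p 0 * q 3)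
    + h 0 * (p 1 * q 0) + h 1 * (p 2 * q 0) + h 2 * (p 3 * q 0)

end Scalars

section Main

variable {k : Type u} [Field k] {S : Type v} [Ring S] [Algebra k S] {x : Fin 4 → S} {α β γ : k}

lemma conjZ (g : S →ₐ[k] S) (p q r s : S) :
    (!![1, 0; 0, -1] : Matrix (Fin 2) (Fin 2) S) * (!![p, q; r, s] : Matrix (Fin 2) (Fin 2) S).map g
      * !![1, 0; 0, -1] = !![g p, -g q; -g r, g s] := by
  ext i j
  fin_cases i <;> fin_cases j <;>
  simp [Matrix.mul_apply, Fin.sum_univ_two, Matrix.map_apply, Matrix.vecMul, dotProduct]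

lemma conjX (g : S →ₐ[k] S) (p q r s : S) :
    (!![0, 1; 1, 0] : Matrix (Fin 2) (Fin 2) S) * (!![p, q; r, s] : Matrix (Fin 2) (Fin 2) S).map g
      * !![0, 1; 1, 0] = !![g s, g r; g q, g p] := by
  ext i j
  fin_cases i <;> fin_cases j <;>
  simp [Matrix.mul_apply, Fin.sum_univ_two, Matrix.map_apply, Matrix.vecMul, dotProduct]

lemma mem_twA (g₁ g₂ : S →ₐ[k] S) (p q r s : S) (h1 : g₁ p = p) (h2 : -g₁ q = q) (h3 : -g₁ r = r)
    (h4 : g₁ s = s) (h5 : g₂ s = p) (h6 : g₂ r = q) (h7 : g₂ q = r) (h8 : g₂ p = s) :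
    (!![p, q; r, s] : Matrix (Fin 2) (Fin 2) S) ∈ twA g₁ g₂ := by
  refine ⟨?_, ?_⟩
  · show _ * _ * _ = _
    rw [conjZ, h1, h2, h3, h4]
  · show _ * _ * _ = _
    rw [conjX, h5, h6, h7, h8]

/-- the degree one element of `M_2(S)` with coordinates `a` (`ι` a square root of `-1`) -/
def linM (x : Fin 4 → S) (ι : k) (a : Fin 4 → k) : Matrix (Fin 2) (Fin 2) S :=
  !![a 0 • x 0 + (ι * a 1) • x 1, (ι * a 2) • x 2 + a 3 • x 3;
     (ι * a 2) • x 2 - a 3 • x 3, a 0 • x 0 - (ι * a 1) • x 1]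

/-- the action of `g₁` on generators -/
def Is1 (x : Fin 4 → S) (g : S →ₐ[k] S) : Prop :=
  g (x 0) = x 0 ∧ g (x 1) = x 1 ∧ g (x 2) = -x 2 ∧ g (x 3) = -x 3

/-- the action of `g₂` on generators -/
def Is2 (x : Fin 4 → S) (g : S →ₐ[k] S) : Prop :=
  g (x 0) = x 0 ∧ g (x 1) = -x 1 ∧ g (x 2) = x 2 ∧ g (x 3) = -x 3

lemma linM_mem {g₁ g₂ : S →ₐ[k] S} (hg₁ : Is1 x g₁) (hg₂ : Is2 x g₂) (ι : k) (a : Fin 4 → k) :
    linM x ι a ∈ twA g₁ g₂ := by
  obtain ⟨h10, h11, h12, h13⟩ := hg₁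
  obtain ⟨h20, h21, h22, h23⟩ := hg₂
  apply mem_twA <;>
  simp only [map_add, map_sub, map_smul, h10, h11, h12, h13, h20, h21, h22, h23, smul_neg] <;> abel

lemma linM_mul [CharZero k] (hx : Sat α β γ x) (ι : k) (hι : ι * ι = -1) (b a : Fin 4 → k)
    (h : Sys α β γ b a) :
    linM x ι b * linM x ι a = Matrix.scalar (Fin 2)
      ((b 0 * a 0) • (x 0 * x 0) - (b 1 * a 1) • (x 1 * x 1)
        - (b 2 * a 2) • (x 2 * x 2) - (b 3 * a 3) • (x 3 * x 3)) := by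
  have v1 := vanish α _ _ _ _ hx.comm1 hx.anti1 _ _ _ _ h.s1 h.d1
  have v2 := vanish β _ _ _ _ hx.comm2 hx.anti2 _ _ _ _ h.s2 h.d2
  have v3 := vanish γ _ _ _ _ hx.comm3 hx.anti3 _ _ _ _ h.s3 h.d3
  unfold linM
  generalize x 0 = x0 at *
  generalize x 1 = x1 at *
  generalize x 2 = x2 at *
  generalize x 3 = x3 at *
  have e : ∀ y : S, Matrix.scalar (Fin 2) y = !![y, 0; 0, y] := by
    intro y
    ext i j
    fin_cases i <;> fin_cases j <;> simp
  rw [e, Matrix.mul_fin_two]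
  congr 1
  ext i j
  fin_cases i <;> fin_cases j <;>
    simp only [mul_add, add_mul, mul_sub, sub_mul, smul_mul_assoc, mul_smul_comm,
      Fin.zero_eta, Fin.mk_one, Matrix.cons_val', Matrix.cons_val_zero,
      Matrix.cons_val_one, Matrix.cons_val_fin_one]
  · linear_combination (norm := module) ι • v1 + (b 1 * a 1) • hι • (x1 * x1)
      + (b 2 * a 2) • hι • (x2 * x2)
  · linear_combination (norm := module) ι • v2 + v3 + (b 1 * a 2) • hι • (x1 * x2)
      - (b 2 * a 1) • hι • (x2 * x1)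
  · linear_combination (norm := module) ι • v2 - v3 - (b 1 * a 2) • hι • (x1 * x2)
      + (b 2 * a 1) • hι • (x2 * x1)
  · linear_combination (norm := module) -ι • v1 + (b 1 * a 1) • hι • (x1 * x1)
      + (b 2 * a 2) • hι • (x2 * x2)

/-- The universal property of the generators `x`. -/
def Univ (α β γ : k) (x : Fin 4 → S) : Prop :=
  ∀ (B : Type u) [Ring B] [Algebra k B] (y : Fin 4 → B), Sat α β γ y →
    ∃ F : S →ₐ[k] B, ∀ i, F (x i) = y i

lemma toDual_degTwo (D : S →ₐ[k] DualNumber k) (t : Fin 4 → k)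
    (hD : ∀ i, D (x i) = t i • DualNumber.eps) (Ω : S) (h : Ω ∈ degTwo k x) : D Ω = 0 := by
  have : degTwo k x ≤ LinearMap.ker D.toLinearMap := by
    unfold degTwo
    rw [Submodule.span_le]
    rintro y ⟨p, rfl⟩
    simp [hD]
  exact this h

/-- the quotient map -/
lemma mk_eq_zero {R : Type*} [Ring R] (ω y : R) :
    (TwoSidedIdeal.span {ω}).ringCon.mk' y = 0 ↔ y ∈ TwoSidedIdeal.span {ω} := by
  rw [← TwoSidedIdeal.mem_ker, TwoSidedIdeal.ker_ringCon_mk']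

lemma linM_ne (hU : Univ α β γ x) {g₁ g₂ : S →ₐ[k] S} (hg₁ : Is1 x g₁) (hg₂ : Is2 x g₂)
    (ι : k) (hι : ι * ι = -1) (Ω : S) (hdeg : Ω ∈ degTwo k x)
    (hA : Matrix.scalar (Fin 2) Ω ∈ twA g₁ g₂) (a : Fin 4 → k) (ha : ∃ i, a i ≠ 0) :
    (TwoSidedIdeal.span {(⟨Matrix.scalar (Fin 2) Ω, hA⟩ : twA g₁ g₂)}).ringCon.mk'
      ⟨linM x ι a, linM_mem hg₁ hg₂ ι a⟩ ≠ 0 := by
  intro h0
  have hmem := (mk_eq_zero _ _).1 h0
  obtain ⟨i, hi⟩ := ha
  have hι0 : ι ≠ 0 := by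
    rintro rfl
    simp at hι
  obtain ⟨D, hD⟩ := hU (DualNumber k)
    (fun j => (Pi.single i (1 : k) : Fin 4 → k) j • (DualNumber.eps : DualNumber k))
    (by constructor <;> simp)
  let ψ : twA g₁ g₂ →ₐ[k] Matrix (Fin 2) (Fin 2) (DualNumber k) :=
    (AlgHom.mapMatrix D).comp (twA g₁ g₂).val
  have hker : TwoSidedIdeal.span {(⟨Matrix.scalar (Fin 2) Ω, hA⟩ : twA g₁ g₂)} ≤
      TwoSidedIdeal.ker ψ := by
    rw [TwoSidedIdeal.span_le]
    intro y hy
    rw [Set.mem_singleton_iff] at hy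
    subst hy
    show _ ∈ TwoSidedIdeal.ker ψ
    rw [TwoSidedIdeal.mem_ker]
    have e1 : ψ ⟨Matrix.scalar (Fin 2) Ω, hA⟩ = (Matrix.scalar (Fin 2) Ω).map D := rfl
    rw [e1]
    ext1 p q
    rw [Matrix.map_apply, Matrix.scalar_apply, Matrix.diagonal_apply]
    split_ifs
    · exact toDual_degTwo D _ hD Ω hdeg
    · simp
  have h1 := hker hmem
  rw [TwoSidedIdeal.mem_ker] at h1
  have e2 : ψ ⟨linM x ι a, linM_mem hg₁ hg₂ ι a⟩ = (linM x ι a).map D := rfl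
  rw [e2] at h1
  have heps : ∀ c : k, c • (DualNumber.eps : DualNumber k) = 0 → c = 0 := by
    intro c hc
    have := congrArg TrivSqZeroExt.snd hc
    simpa using this
  have h00 := congrFun (congrFun h1 0) 0
  have h01 := congrFun (congrFun h1 0) 1
  simp only [linM, Matrix.map_apply, Matrix.of_apply, Matrix.cons_val', Matrix.cons_val_zero,
    Matrix.cons_val_one, Matrix.cons_val_fin_one, map_add, map_smul, hD,
    Matrix.zero_apply, smul_smul, ← add_smul] at h00 h01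
  have k00 := heps _ h00
  have k01 := heps _ h01
  fin_cases i
  · simp at k00
    exact hi (by simpa using k00)
  · simp [hι0] at k00
    exact hi (by simpa using k00)
  · simp [hι0] at k01
    exact hi (by simpa using k01)
  · simp at k01
    exact hi (by simpa using k01)

/-- normal form of an element of degree two -/
def nf (x : Fin 4 → S) (f : Fin 4 → k) (g h : Fin 3 → k) : S :=
  f 0 • (x 0 * x 0) + f 1 • (x 1 * x 1) + f 2 • (x 2 * x 2)
    + f 3 • (x 3 * x 3) + g 0 • (x 0 * x 1) + g 1 • (x 0 * x 2)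
    + g 2 • (x 0 * x 3) + h 0 • (x 1 * x 0) + h 1 • (x 2 * x 0)
    + h 2 • (x 3 * x 0)

lemma central_pts (hU : Univ α β γ x) {p q r : Fin 4 → k} (hpq : PR α β γ p q)
    (hqr : PR α β γ q r) (f : Fin 4 → k) (g h : Fin 3 → k)
    (hcen : nf x f g h ∈ Subalgebra.center k S) (i : Fin 4) :
    vf f g h p q * r i = p i * vf f g h q r := by
  obtain ⟨F, hF⟩ := hU _ _ (sat_NM hpq hqr)
  have hc := Subalgebra.mem_center_iff.1 hcen (x i)
  have e := congrArg F hc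
  have hv : F (nf x f g h) = NM2 (vf f g h p q) (vf f g h q r) := by
    unfold nf vf
    simp only [map_add, map_smul, map_mul, hF, NM_mul, NM2_smul, NM2_add]
  rw [map_mul, map_mul, hv, hF] at e
  have e3 := congrFun (congrFun e 0) 3
  rw [NM2_mul, NM_mul2] at e3
  exact e3.symm

lemma nf_add (f f' : Fin 4 → k) (g g' h h' : Fin 3 → k) :
    nf x f g h + nf x f' g' h' = nf x (f + f') (g + g') (h + h') := by
  unfold nf
  simp only [Pi.add_apply]
  module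

lemma nf_smul (c : k) (f : Fin 4 → k) (g h : Fin 3 → k) :
    c • nf x f g h = nf x (c • f) (c • g) (c • h) := by
  unfold nf
  simp only [Pi.smul_apply, smul_eq_mul]
  module

lemma exists_nf [CharZero k] (hx : Sat α β γ x) (hα : α ≠ 0) (hβ : β ≠ 0) (hγ : γ ≠ 0) (Ω : S)
    (h : Ω ∈ degTwo k x) : ∃ (f : Fin 4 → k) (g h : Fin 3 → k), Ω = nf x f g h := by
  unfold degTwo at h
  induction h using Submodule.span_induction with
  | mem y hy =>
    obtain ⟨⟨a, b⟩, rfl⟩ := hy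
    have c1 : α⁻¹ • (x 0 * x 1 - x 1 * x 0) =
        x 2 * x 3 + x 3 * x 2 := by
      rw [hx.comm1, smul_smul, inv_mul_cancel₀ hα, one_smul]
    have c2 : β⁻¹ • (x 0 * x 2 - x 2 * x 0) =
        x 3 * x 1 + x 1 * x 3 := by
      rw [hx.comm2, smul_smul, inv_mul_cancel₀ hβ, one_smul]
    have c3 : γ⁻¹ • (x 0 * x 3 - x 3 * x 0) =
        x 1 * x 2 + x 2 * x 1 := by
      rw [hx.comm3, smul_smul, inv_mul_cancel₀ hγ, one_smul]
    have a1 := hx.anti1
    have a2 := hx.anti2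
    have a3 := hx.anti3
    fin_cases a <;> fin_cases b <;> simp only [nf]
    · exact ⟨![1, 0, 0, 0], 0, 0, by simp⟩
    · exact ⟨0, ![1, 0, 0], 0, by simp⟩
    · exact ⟨0, ![0, 1, 0], 0, by simp⟩
    · exact ⟨0, ![0, 0, 1], 0, by simp⟩
    · exact ⟨0, 0, ![1, 0, 0], by simp⟩
    · exact ⟨![0, 1, 0, 0], 0, 0, by simp⟩
    · refine ⟨0, ![0, 0, 1 / 2 + γ⁻¹ / 2], ![0, 0, 1 / 2 - γ⁻¹ / 2], ?_⟩
      simp only [Pi.zero_apply, Matrix.cons_val]
      change x 1 * x 2 = _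
      linear_combination (norm := module) (-1 / 2 : k) • a3 + (-1 / 2 : k) • c3
    · refine ⟨0, ![0, -1 / 2 + β⁻¹ / 2, 0], ![0, -1 / 2 - β⁻¹ / 2, 0], ?_⟩
      simp only [Pi.zero_apply, Matrix.cons_val]
      change x 1 * x 3 = _
      linear_combination (norm := module) (1 / 2 : k) • a2 + (-1 / 2 : k) • c2
    · exact ⟨0, 0, ![0, 1, 0], by simp⟩
    · refine ⟨0, ![0, 0, -1 / 2 + γ⁻¹ / 2], ![0, 0, -1 / 2 - γ⁻¹ / 2], ?_⟩
      simp only [Pi.zero_apply, Matrix.cons_val]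
      change x 2 * x 1 = _
      linear_combination (norm := module) (1 / 2 : k) • a3 + (-1 / 2 : k) • c3
    · exact ⟨![0, 0, 1, 0], 0, 0, by simp⟩
    · refine ⟨0, ![1 / 2 + α⁻¹ / 2, 0, 0], ![1 / 2 - α⁻¹ / 2, 0, 0], ?_⟩
      simp only [Pi.zero_apply, Matrix.cons_val]
      change x 2 * x 3 = _
      linear_combination (norm := module) (-1 / 2 : k) • a1 + (-1 / 2 : k) • c1
    · exact ⟨0, 0, ![0, 0, 1], by simp⟩
    · refine ⟨0, ![0, 1 / 2 + β⁻¹ / 2, 0], ![0, 1 / 2 - β⁻¹ / 2, 0], ?_⟩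
      simp only [Pi.zero_apply, Matrix.cons_val]
      change x 3 * x 1 = _
      linear_combination (norm := module) (-1 / 2 : k) • a2 + (-1 / 2 : k) • c2
    · refine ⟨0, ![-1 / 2 + α⁻¹ / 2, 0, 0], ![-1 / 2 - α⁻¹ / 2, 0, 0], ?_⟩
      simp only [Pi.zero_apply, Matrix.cons_val]
      change x 3 * x 2 = _
      linear_combination (norm := module) (1 / 2 : k) • a1 + (-1 / 2 : k) • c1
    · exact ⟨![0, 0, 0, 1], 0, 0, by simp⟩
  | zero => exact ⟨0, 0, 0, by simp [nf]⟩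
  | add y z _ _ hy hz =>
    obtain ⟨f, g, h, rfl⟩ := hy
    obtain ⟨f', g', h', rfl⟩ := hz
    exact ⟨_, _, _, nf_add _ _ _ _ _ _⟩
  | smul c y _ hy =>
    obtain ⟨f, g, h, rfl⟩ := hy
    exact ⟨_, _, _, nf_smul _ _ _ _⟩

lemma pts0 [CharZero k] (hU : Univ α β γ x) (w1 w2 w3 : k) (hα : α * w1 = w3 - w2) (hβ : β * w2 = w1 - w3)
    (hγ : γ * w3 = w2 - w1) (hv1 : w2 + w3 - w1 ≠ 0) (f : Fin 4 → k) (g h : Fin 3 → k)
    (hcen : nf x f g h ∈ Subalgebra.center k S) (s1 s2 s3 : k)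
    (hs1 : s1 ^ 2 = w3 - w2) (hs2 : s2 ^ 2 = w1 - w3) (hs3 : s3 ^ 2 = w2 - w1)
    (n1 : s1 ≠ 0) (n2 : s2 ≠ 0) (n3 : s3 ≠ 0) :
    f 1 * ((w2 + w3 - w1) * s1 ^ 2) + f 2 * ((w3 + w1 - w2) * s2 ^ 2) +
      f 3 * ((w1 + w2 - w3) * s3 ^ 2) + 2 * s1 * s2 * s3 * (g 0 * s1 + g 1 * s2 + g 2 * s3) = 0 ∧
    f 1 * ((w2 + w3 - w1) * s1 ^ 2) + f 2 * ((w3 + w1 - w2) * s2 ^ 2) +
      f 3 * ((w1 + w2 - w3) * s3 ^ 2) - 2 * s1 * s2 * s3 * (h 0 * s1 + h 1 * s2 + h 2 * s3) = 0 := by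
  set p : Fin 4 → k := ![2 * s1 * s2 * s3, (w2 + w3 - w1) * s1, (w3 + w1 - w2) * s2,
    (w1 + w2 - w3) * s3] with hp
  set q : Fin 4 → k := ![0, s1, s2, s3] with hq
  set r : Fin 4 → k := ![-(2 * s1 * s2 * s3), (w2 + w3 - w1) * s1, (w3 + w1 - w2) * s2,
    (w1 + w2 - w3) * s3] with hr
  have hpq : PR α β γ p q := by
    constructor <;> simp only [hp, hq, Matrix.cons_val]
    · linear_combination 2 * s2 * s3 * hs1 - 2 * s2 * s3 * hα
    · linear_combination 2 * s1 * s3 * hs2 - 2 * s1 * s3 * hβ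
    · linear_combination 2 * s1 * s2 * hs3 - 2 * s1 * s2 * hγ
    · linear_combination 2 * s2 * s3 * hs1
    · linear_combination 2 * s1 * s3 * hs2
    · linear_combination 2 * s1 * s2 * hs3
  have hqr : PR α β γ q r := by
    constructor <;> simp only [hr, hq, Matrix.cons_val]
    · linear_combination 2 * s2 * s3 * hs1 - 2 * s2 * s3 * hα
    · linear_combination 2 * s1 * s3 * hs2 - 2 * s1 * s3 * hβ
    · linear_combination 2 * s1 * s2 * hs3 - 2 * s1 * s2 * hγ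
    · linear_combination -2 * s2 * s3 * hs1
    · linear_combination -2 * s1 * s3 * hs2
    · linear_combination -2 * s1 * s2 * hs3
  have e0 := central_pts hU hpq hqr f g h hcen 0
  have e1 := central_pts hU hpq hqr f g h hcen 1
  simp only [hp, hr, Matrix.cons_val] at e0 e1
  rw [← hp, ← hr] at e0 e1
  have hP : 2 * s1 * s2 * s3 ≠ 0 :=
    mul_ne_zero (mul_ne_zero (mul_ne_zero two_ne_zero n1) n2) n3
  have hQ : (w2 + w3 - w1) * s1 ≠ 0 := mul_ne_zero hv1 n1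
  have e2 : vf f g h p q + vf f g h q r = 0 := by
    refine mul_left_cancel₀ hP ?_
    linear_combination -e0
  have e3 : vf f g h p q - vf f g h q r = 0 := by
    refine mul_left_cancel₀ hQ ?_
    linear_combination e1
  have e4 : vf f g h p q = 0 := by
    refine mul_left_cancel₀ (two_ne_zero (α := k)) ?_
    linear_combination e2 + e3
  have e5 : vf f g h q r = 0 := by
    refine mul_left_cancel₀ (two_ne_zero (α := k)) ?_
    linear_combination e2 - e3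
  simp only [vf, hp, hq, hr, Matrix.cons_val] at e4 e5
  constructor
  · linear_combination e4
  · linear_combination e5

lemma pts1 [CharZero k] (hU : Univ α β γ x) (w1 w2 w3 : k) (hα : α * w1 = w3 - w2) (hβ : β * w2 = w1 - w3)
    (hγ : γ * w3 = w2 - w1) (hv1 : w2 + w3 - w1 ≠ 0) (f : Fin 4 → k)
    (hcen : nf x f 0 0 ∈ Subalgebra.center k S) (s1 s2 s3 : k)
    (hs1 : s1 ^ 2 = w2 - w3) (hs2 : s2 ^ 2 = w3) (hs3 : s3 ^ 2 = -w2)
    (n1 : s1 ≠ 0) (n2 : s2 ≠ 0) (n3 : s3 ≠ 0) :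
    f 0 * ((w2 + w3 - w1) * (w2 - w3)) + f 2 * ((w1 + w2 - w3) * w3) -
      f 3 * ((w3 + w1 - w2) * w2) = 0 := by
  set p : Fin 4 → k := ![(w2 + w3 - w1) * s1, 2 * s1 * s2 * s3, (w1 + w2 - w3) * s2,
    (w3 + w1 - w2) * s3] with hp
  set q : Fin 4 → k := ![s1, 0, s2, s3] with hq
  set r : Fin 4 → k := ![(w2 + w3 - w1) * s1, -(2 * s1 * s2 * s3), (w1 + w2 - w3) * s2,
    (w3 + w1 - w2) * s3] with hr
  have hpq : PR α β γ p q := by
    constructor <;> simp only [hp, hq, Matrix.cons_val]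
    · linear_combination -2 * s2 * s3 * hs1 - 2 * s2 * s3 * hα
    · linear_combination -2 * s1 * s2 * β * hs3 + 2 * s1 * s2 * hβ
    · linear_combination -2 * s1 * s3 * γ * hs2 - 2 * s1 * s3 * hγ
    · linear_combination 2 * s2 * s3 * hs1
    · linear_combination 2 * s1 * s2 * hs3
    · linear_combination -2 * s1 * s3 * hs2
  have hqr : PR α β γ q r := by
    constructor <;> simp only [hr, hq, Matrix.cons_val]
    · linear_combination -2 * s2 * s3 * hs1 - 2 * s2 * s3 * hα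
    · linear_combination 2 * s1 * s2 * β * hs3 - 2 * s1 * s2 * hβ
    · linear_combination 2 * s1 * s3 * γ * hs2 + 2 * s1 * s3 * hγ
    · linear_combination -2 * s2 * s3 * hs1
    · linear_combination 2 * s1 * s2 * hs3
    · linear_combination -2 * s1 * s3 * hs2
  have e0 := central_pts hU hpq hqr f 0 0 hcen 1
  have e1 := central_pts hU hpq hqr f 0 0 hcen 0
  simp only [hp, hr, Matrix.cons_val] at e0 e1
  rw [← hp, ← hr] at e0 e1
  have hP : 2 * s1 * s2 * s3 ≠ 0 :=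
    mul_ne_zero (mul_ne_zero (mul_ne_zero two_ne_zero n1) n2) n3
  have hQ : (w2 + w3 - w1) * s1 ≠ 0 := mul_ne_zero hv1 n1
  have e2 : vf f 0 0 p q + vf f 0 0 q r = 0 := by
    refine mul_left_cancel₀ hP ?_
    linear_combination -e0
  have e3 : vf f 0 0 p q - vf f 0 0 q r = 0 := by
    refine mul_left_cancel₀ hQ ?_
    linear_combination e1
  have e4 : vf f 0 0 p q = 0 := by
    refine mul_left_cancel₀ (two_ne_zero (α := k)) ?_
    linear_combination e2 + e3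
  simp only [vf, hp, hq, Matrix.cons_val, Pi.zero_apply] at e4
  linear_combination e4 - f 0 * (w2 + w3 - w1) * hs1 - f 2 * (w1 + w2 - w3) * hs2 -
    f 3 * (w3 + w1 - w2) * hs3

lemma central_span [IsAlgClosed k] [CharZero k] (hx : Sat α β γ x) (hU : Univ α β γ x)
    (w1 w2 w3 : k) (h2 : w2 ≠ 0)
    (h3 : w3 ≠ 0) (d1 : w3 - w2 ≠ 0) (d2 : w1 - w3 ≠ 0) (d3 : w2 - w1 ≠ 0)
    (hα : α * w1 = w3 - w2) (hβ : β * w2 = w1 - w3)
    (hγ : γ * w3 = w2 - w1) (hv1 : w2 + w3 - w1 ≠ 0) (Ω : S)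
    (hdeg : Ω ∈ degTwo k x) (hcen : Ω ∈ Subalgebra.center k S) :
    ∃ c1 c2 : k, Ω = nf x ![-c1, c1 + c2 * (w1 * (w2 + w3 - w1)),
      c1 + c2 * (w2 * (w3 + w1 - w2)), c1 + c2 * (w3 * (w1 + w2 - w3))] 0 0 := by
  have hα0 : α ≠ 0 := by
    rintro rfl
    exact d1 (by rw [← hα]; ring)
  have hβ0 : β ≠ 0 := by
    rintro rfl
    exact d2 (by rw [← hβ]; ring)
  have hγ0 : γ ≠ 0 := by
    rintro rfl
    exact d3 (by rw [← hγ]; ring)
  obtain ⟨f, g, h, rfl⟩ := exists_nf hx hα0 hβ0 hγ0 Ω hdeg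
  obtain ⟨s1, hs1⟩ := IsAlgClosed.exists_pow_nat_eq (w3 - w2) (n := 2) (by norm_num)
  obtain ⟨s2, hs2⟩ := IsAlgClosed.exists_pow_nat_eq (w1 - w3) (n := 2) (by norm_num)
  obtain ⟨s3, hs3⟩ := IsAlgClosed.exists_pow_nat_eq (w2 - w1) (n := 2) (by norm_num)
  have n1 : s1 ≠ 0 := by
    rintro rfl
    exact d1 (by rw [← hs1]; ring)
  have n2 : s2 ≠ 0 := by
    rintro rfl
    exact d2 (by rw [← hs2]; ring)
  have n3 : s3 ≠ 0 := by
    rintro rfl
    exact d3 (by rw [← hs3]; ring)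
  obtain ⟨A0, B0⟩ := pts0 hU w1 w2 w3 hα hβ hγ hv1 f g h hcen s1 s2 s3 hs1 hs2 hs3 n1 n2 n3
  obtain ⟨A1, B1⟩ := pts0 hU w1 w2 w3 hα hβ hγ hv1 f g h hcen (-s1) s2 s3 (by rw [neg_sq]; exact hs1)
    hs2 hs3 (neg_ne_zero.2 n1) n2 n3
  obtain ⟨A2, B2⟩ := pts0 hU w1 w2 w3 hα hβ hγ hv1 f g h hcen s1 (-s2) s3 hs1
    (by rw [neg_sq]; exact hs2) hs3 n1 (neg_ne_zero.2 n2) n3
  obtain ⟨A3, B3⟩ := pts0 hU w1 w2 w3 hα hβ hγ hv1 f g h hcen s1 s2 (-s3) hs1 hs2
    (by rw [neg_sq]; exact hs3) n1 n2 (neg_ne_zero.2 n3)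
  have hP : 8 * s1 * s2 * s3 ≠ 0 :=
    mul_ne_zero (mul_ne_zero (mul_ne_zero (by norm_num) n1) n2) n3
  have E0 : f 1 * ((w2 + w3 - w1) * (w3 - w2)) + f 2 * ((w3 + w1 - w2) * (w1 - w3)) +
      f 3 * ((w1 + w2 - w3) * (w2 - w1)) = 0 := by
    refine mul_left_cancel₀ (show (4 : k) ≠ 0 by norm_num) ?_
    linear_combination A0 + A1 + A2 + A3 - 4 * f 1 * (w2 + w3 - w1) * hs1 -
      4 * f 2 * (w3 + w1 - w2) * hs2 - 4 * f 3 * (w1 + w2 - w3) * hs3
  have G0 : g 0 = 0 := by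
    refine mul_left_cancel₀ (mul_ne_zero hP n1) ?_
    linear_combination A0 + A1 - A2 - A3
  have G1 : g 1 = 0 := by
    refine mul_left_cancel₀ (mul_ne_zero hP n2) ?_
    linear_combination A0 + A2 - A1 - A3
  have G2 : g 2 = 0 := by
    refine mul_left_cancel₀ (mul_ne_zero hP n3) ?_
    linear_combination A0 + A3 - A1 - A2
  have H0 : h 0 = 0 := by
    refine mul_left_cancel₀ (mul_ne_zero hP n1) ?_
    linear_combination -(B0 + B1 - B2 - B3)
  have H1 : h 1 = 0 := by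
    refine mul_left_cancel₀ (mul_ne_zero hP n2) ?_
    linear_combination -(B0 + B2 - B1 - B3)
  have H2 : h 2 = 0 := by
    refine mul_left_cancel₀ (mul_ne_zero hP n3) ?_
    linear_combination -(B0 + B3 - B1 - B2)
  have hg : g = 0 := by
    ext i; fin_cases i <;> assumption
  have hh : h = 0 := by
    ext i; fin_cases i <;> assumption
  subst hg
  subst hh
  obtain ⟨t1, ht1⟩ := IsAlgClosed.exists_pow_nat_eq (w2 - w3) (n := 2) (by norm_num)
  obtain ⟨t2, ht2⟩ := IsAlgClosed.exists_pow_nat_eq w3 (n := 2) (by norm_num)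
  obtain ⟨t3, ht3⟩ := IsAlgClosed.exists_pow_nat_eq (-w2) (n := 2) (by norm_num)
  have m1 : t1 ≠ 0 := by
    rintro rfl
    exact d1 (by linear_combination ht1)
  have m2 : t2 ≠ 0 := by
    rintro rfl
    exact h3 (by linear_combination -ht2)
  have m3 : t3 ≠ 0 := by
    rintro rfl
    exact h2 (by linear_combination ht3)
  have E1 := pts1 hU w1 w2 w3 hα hβ hγ hv1 f hcen t1 t2 t3 ht1 ht2 ht3 m1 m2 m3
  have hD : (w3 - w2) * (w2 + w3 - w1) ≠ 0 := mul_ne_zero d1 hv1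
  obtain ⟨c2, hc2⟩ : ∃ c2, c2 * ((w3 - w2) * (w2 + w3 - w1)) = f 2 - f 3 :=
    ⟨(f 2 - f 3) / ((w3 - w2) * (w2 + w3 - w1)), by field_simp⟩
  refine ⟨-f 0, c2, ?_⟩
  congr 1
  ext i
  fin_cases i
  · simp
  · show f 1 = -f 0 + c2 * (w1 * (w2 + w3 - w1))
    refine mul_left_cancel₀ hD ?_
    linear_combination E0 - E1 - (w1 * (w2 + w3 - w1)) * hc2
  · show f 2 = -f 0 + c2 * (w2 * (w3 + w1 - w2))
    refine mul_left_cancel₀ hD ?_
    linear_combination -E1 - (w2 * (w3 + w1 - w2)) * hc2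
  · show f 3 = -f 0 + c2 * (w3 * (w1 + w2 - w3))
    refine mul_left_cancel₀ hD ?_
    linear_combination -E1 - (w3 * (w1 + w2 - w3)) * hc2

lemma scalar_mem {g₁ g₂ : S →ₐ[k] S} (hg₁ : Is1 x g₁) (hg₂ : Is2 x g₂) (f : Fin 4 → k) :
    Matrix.scalar (Fin 2) (nf x f 0 0) ∈ twA g₁ g₂ := by
  obtain ⟨h10, h11, h12, h13⟩ := hg₁
  obtain ⟨h20, h21, h22, h23⟩ := hg₂
  have e : ∀ y : S, Matrix.scalar (Fin 2) y = !![y, 0; 0, y] := by
    intro y
    ext i j
    fin_cases i <;> fin_cases j <;> simp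
  have i1 : g₁ (nf x f 0 0) = nf x f 0 0 := by
    unfold nf
    simp only [map_add, map_smul, map_mul, h10, h11, h12, h13, Pi.zero_apply, zero_smul,
      mul_neg, neg_mul, neg_neg, map_zero]
  have i2 : g₂ (nf x f 0 0) = nf x f 0 0 := by
    unfold nf
    simp only [map_add, map_smul, map_mul, h20, h21, h22, h23, Pi.zero_apply, zero_smul,
      mul_neg, neg_mul, neg_neg, map_zero]
  rw [e]
  apply mem_twA <;> simp [i1, i2]

theorem core [IsAlgClosed k] [CharZero k] (hx : Sat α β γ x) (hU : Univ α β γ x)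
    (habc : α + β + γ + α * β * γ = 0)
    (hα : α ≠ 0 ∧ α ≠ 1 ∧ α ≠ -1) (hβ : β ≠ 0 ∧ β ≠ 1 ∧ β ≠ -1) (hγ : γ ≠ 0 ∧ γ ≠ 1 ∧ γ ≠ -1)
    {g₁ g₂ : S →ₐ[k] S} (hg₁ : Is1 x g₁) (hg₂ : Is2 x g₂)
    (Ω : S) (hΩ : IsCentralTwo k x Ω) : TwistQuotNotDomain g₁ g₂ Ω := by
  obtain ⟨hdeg, hcen, hne⟩ := hΩ
  obtain ⟨hα0, hα1, hα2⟩ := hα
  obtain ⟨hβ0, hβ1, hβ2⟩ := hβ
  obtain ⟨hγ0, hγ1, hγ2⟩ := hγ
  obtain ⟨w1, hw1⟩ : ∃ w1, w1 = 1 + β := ⟨_, rfl⟩
  obtain ⟨w2, hw2⟩ : ∃ w2, w2 = 1 - α := ⟨_, rfl⟩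
  obtain ⟨w3, hw3⟩ : ∃ w3, w3 = 1 + α * β := ⟨_, rfl⟩
  have eα : α * w1 = w3 - w2 := by rw [hw1, hw2, hw3]; ring
  have eβ : β * w2 = w1 - w3 := by rw [hw1, hw2, hw3]; ring
  have eγ : γ * w3 = w2 - w1 := by rw [hw1, hw2, hw3]; linear_combination habc
  have h1 : w1 ≠ 0 := by
    rw [hw1]; intro h; exact hβ2 (by linear_combination h)
  have h2 : w2 ≠ 0 := by
    rw [hw2]; intro h; exact hα1 (by linear_combination -h)
  have h3 : w3 ≠ 0 := by
    intro h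
    rw [h, mul_zero] at eγ
    have : α + β = 0 := by rw [hw1, hw2] at eγ; linear_combination eγ
    have hb : β = -α := by linear_combination this
    rw [hw3, hb] at h
    have : (α - 1) * (α + 1) = 0 := by linear_combination -h
    rcases mul_eq_zero.1 this with h' | h'
    · exact hα1 (by linear_combination h')
    · exact hα2 (by linear_combination h')
  have d1 : w3 - w2 ≠ 0 := by rw [← eα]; exact mul_ne_zero hα0 h1
  have d2 : w1 - w3 ≠ 0 := by rw [← eβ]; exact mul_ne_zero hβ0 h2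
  have d3 : w2 - w1 ≠ 0 := by rw [← eγ]; exact mul_ne_zero hγ0 h3
  have hv1 : w2 + w3 - w1 ≠ 0 := by
    have : w2 + w3 - w1 = w2 * (1 - β) := by linear_combination eβ
    rw [this]
    refine mul_ne_zero h2 ?_
    intro h; exact hβ1 (by linear_combination -h)
  obtain ⟨c1, c2, rfl⟩ := central_span hx hU w1 w2 w3 h2 h3 d1 d2 d3 eα eβ eγ hv1 Ω hdeg hcen
  have hc : ¬ (c1 = 0 ∧ c2 = 0) := by
    rintro ⟨rfl, rfl⟩
    apply hne
    simp [nf]
  refine ⟨scalar_mem hg₁ hg₂ _, ?_⟩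
  obtain ⟨ι, hι⟩ := IsAlgClosed.exists_pow_nat_eq (-1 : k) (n := 2) (by norm_num)
  have hι' : ι * ι = -1 := by rw [← hι]; ring
  obtain ⟨b, a, hsys, e0, e1, e2, e3, hb, ha⟩ := exists_sys w1 w2 w3 h1 h2 h3 eα eβ eγ c1 c2 hc
  refine ⟨_, _, linM_ne hU hg₁ hg₂ ι hι' _ hdeg (scalar_mem hg₁ hg₂ _) b hb,
    linM_ne hU hg₁ hg₂ ι hι' _ hdeg (scalar_mem hg₁ hg₂ _) a ha, ?_⟩
  rw [← map_mul, mk_eq_zero]
  set Ω : S := nf x ![-c1, c1 + c2 * (w1 * (w2 + w3 - w1)),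
      c1 + c2 * (w2 * (w3 + w1 - w2)), c1 + c2 * (w3 * (w1 + w2 - w3))] 0 0 with hΩ
  have key : (⟨linM x ι b, linM_mem hg₁ hg₂ ι b⟩ * ⟨linM x ι a, linM_mem hg₁ hg₂ ι a⟩ :
      twA g₁ g₂) = -⟨Matrix.scalar (Fin 2) Ω, scalar_mem hg₁ hg₂ _⟩ := by
    apply Subtype.ext
    show linM x ι b * linM x ι a = -Matrix.scalar (Fin 2) Ω
    rw [linM_mul hx ι hι' b a hsys, ← map_neg, e0, e1, e2, e3]
    congr 1
    rw [hΩ]
    unfold nf
    simp only [Matrix.cons_val, Pi.zero_apply]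
    module
  rw [key]
  exact neg_mem (TwoSidedIdeal.subset_span (Set.mem_singleton _))

end Main

lemma homOfGens_x {k : Type u} [Field k] (α β γ : k) {B : Type*} [Ring B] [Algebra k B]
    (y : Fin 4 → B) (hy : Sat α β γ y) (i : Fin 4) :
    homOfGens (SklRel α β γ) y hy.rel (x α β γ i) = y i := by
  have h := RingQuot.liftAlgHom_mkAlgHom_apply k (FreeAlgebra.lift k y) hy.rel (FreeAlgebra.ι k i)
  rw [FreeAlgebra.lift_ι_apply] at h
  exact h

/-- **Main theorem.** Let `k` be an algebraically closed field of characteristic `0` and let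
`α, β, γ` be parameters with `α + β + γ + αβγ = 0`, none of them in `{0, 1, -1}`.
For every nonzero element `Ω` of degree two of the centre of `S(α, β, γ)`, the scalar matrix `Ω`
lies in `A = M_2(S)^{K_4}` and the ring `R_Ω = A / (Ω)` has nonzero zero-divisors; in particular
it is not a domain. -/
theorem result {k : Type u} [Field k] [IsAlgClosed k] [CharZero k] (α β γ : k)
    (habc : α + β + γ + α * β * γ = 0)
    (hα : α ≠ 0 ∧ α ≠ 1 ∧ α ≠ -1) (hβ : β ≠ 0 ∧ β ≠ 1 ∧ β ≠ -1) (hγ : γ ≠ 0 ∧ γ ≠ 1 ∧ γ ≠ -1)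
    (Ω : Skl α β γ) (hΩ : IsCentralTwo k (x α β γ) Ω) :
    TwistQuotNotDomain (g1 α β γ) (g2 α β γ) Ω := by
  refine core (sat_x α β γ) ?_ habc hα hβ hγ ?_ ?_ Ω hΩ
  · intro B _ _ y hy
    exact ⟨homOfGens (SklRel α β γ) y hy.rel, homOfGens_x α β γ y hy⟩
  · exact ⟨homOfGens_x α β γ _ (sat_y1 α β γ) 0, homOfGens_x α β γ _ (sat_y1 α β γ) 1,
      homOfGens_x α β γ _ (sat_y1 α β γ) 2, homOfGens_x α β γ _ (sat_y1 α β γ) 3⟩
  · exact ⟨homOfGens_x α β γ _ (sat_y2 α β γ) 0, homOfGens_x α β γ _ (sat_y2 α β γ) 1,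
      homOfGens_x α β γ _ (sat_y2 α β γ) 2, homOfGens_x α β γ _ (sat_y2 α β γ) 3⟩

end Pool.Agent.Results.MP_b32758_al.NeverDomain
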